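import Pool.Agent.H752.KM.Stubs
import Pool.Agent.NPC.Dec

/-!
# Task K4b (project KM): rounding a density function
-/

set_option autoImplicit false

namespace Pool.Agent.H752.KM

open Pool.Agent.NPC Pool.Agent.H620R2.Gauge

theorem K4b_dyadic_unique {z : List Bool} {a b : ℝ} (ha : Dyadic z a) (hb : Dyadic z b) :
    a = b := by
  obtain ⟨s, u, v, h1, h2⟩ := ha
  obtain ⟨s', u', v', h1', h2'⟩ := hb
  have h := congrArg unpair (h1.symm.trans h1')
  rw [unpair_pairBits, unpair_pairBits] at h
  have e1 : s :: u = s' :: u' := congrArg Prod.fst h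
  have e2 : v = v' := congrArg Prod.snd h
  have e3 := List.cons.inj e1
  rw [h2, h2', e2, e3.1, e3.2]

theorem K4b_dyv {z : List Bool} {a : ℝ} (ha : Dyadic z a) : dyv z = a := by
  unfold dyv
  rw [dif_pos ⟨a, ha⟩]
  exact K4b_dyadic_unique (Classical.choose_spec (⟨a, ha⟩ : ∃ a, Dyadic z a)) ha

theorem K4b_bounds {F : List Bool → List Bool} {d : ℕ → List Bool → ℝ} {k : ℕ}
    (hF : Computes F d) (hd : Density (d k)) (w : List Bool) :
    d k w + 3 * 2⁻¹ ^ prec k w ≤ cap F k w ∧ cap F k w ≤ d k w + 5 * 2⁻¹ ^ prec k w := by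
  obtain ⟨a, ha, hb⟩ := hF k (prec k w) w
  have h0 := hd.1 w
  have hp : (0:ℝ) < 2⁻¹ ^ prec k w := by positivity
  unfold cap
  rw [K4b_dyv ha]
  rw [abs_le] at hb
  constructor
  · have := le_max_right 0 a
    linarith [hb.1]
  · have : max 0 a ≤ d k w + 2⁻¹ ^ prec k w := max_le (by linarith) (by linarith [hb.2])
    linarith

theorem K4b_cap_nonneg (F : List Bool → List Bool) (k : ℕ) (w : List Bool) : 0 ≤ cap F k w := by
  unfold cap
  have h1 := le_max_left 0 (dyv (F (inp k (prec k w) w)))
  have hp : (0:ℝ) < 2⁻¹ ^ prec k w := by positivity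
  linarith

theorem t_cap : St_cap := by
  intro F d k hF hd hk
  have hrule : ∀ w, cap F k (w ++ [false]) + cap F k (w ++ [true]) ≤ 2 * cap F k w := by
    intro w
    have h0 := (K4b_bounds hF hd (w ++ [false])).2
    have h1 := (K4b_bounds hF hd (w ++ [true])).2
    have h2 := (K4b_bounds hF hd w).1
    have h3 := hd.2 w
    have e : ∀ b : Bool, prec k (w ++ [b]) = prec k w + 2 := by
      intro b
      unfold prec
      rw [List.length_append, List.length_singleton]
      ring
    rw [e, pow_add] at h0 h1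
    have hp : (0:ℝ) < 2⁻¹ ^ prec k w := by positivity
    have e4 : (2⁻¹ : ℝ) ^ 2 = 1 / 4 := by norm_num
    rw [e4] at h0 h1
    linarith
  have hnil : cap F k [] ≤ 2 * 2⁻¹ ^ k := by
    have h0 := (K4b_bounds hF hd []).2
    have e : prec k [] = k + 3 := by
      unfold prec
      rw [List.length_nil]
      ring
    rw [e, pow_add] at h0
    have e4 : (2⁻¹ : ℝ) ^ 3 = 1 / 8 := by norm_num
    rw [e4] at h0
    have hp : (0:ℝ) < 2⁻¹ ^ k := by positivity
    linarith
  refine ⟨hrule, ?_, hnil, ?_⟩
  · intro w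
    have h2 := (K4b_bounds hF hd w).1
    have hp : (0:ℝ) < 2⁻¹ ^ prec k w := by positivity
    linarith
  · intro w
    induction w using List.reverseRecOn with
    | nil =>
      rw [List.length_nil, pow_zero, one_mul]
      exact hnil
    | append_singleton w b ih =>
      have h1 : cap F k (w ++ [b]) ≤ 2 * cap F k w := by
        have h2 := hrule w
        cases b with
        | false => linarith [K4b_cap_nonneg F k (w ++ [true])]
        | true => linarith [K4b_cap_nonneg F k (w ++ [false])]
      rw [List.length_append, List.length_singleton, pow_succ]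
      linarith

end Pool.Agent.H752.KM
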